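import Mathlib
import Pool.Agent.Y1.CT.Main
import Pool.Agent.Y1.CT.Light

/-!
# Rational and numerical equivalence on `A × Z`, for almost all slope types of all CM fields

Let `K i` (`i` in a finite set) be CM fields of degree `2 g i`. Nothing is assumed about their Galois
groups. They are pairwise independent: for `i ≠ k` and all complex embeddings `φ` of `K i` and `ψ` of
`K k` some automorphism of `ℂ` is the identity on `φ (K i)` and the complex conjugation on `ψ (K k)`
(this is no condition if there is only one field). We fix an isomorphism `ν` of the algebraic closure
of `ℚ_p` with `ℂ`; it defines a `p`-adic valuation of `ℂ`, with the value one at `p`. Let `M i` be a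
function with nonzero integral values, all of which divide `n i`, on the complex embeddings of
`K i`, invariant under complex conjugation. A CM type `Φ i` of `K i` (a choice of one element out of
each complex conjugate pair of embeddings; there are `2 ^ (g i)` types), `M i` and a real number
`κ ≠ 0` prescribe the slopes `(a + κ M) / 2` (at the embeddings in `Φ i`) and `(a - κ M) / 2` (outside
of `Φ i`) of a Weil number for `p ^ a` in `K i` (`HasType`). If `p` splits completely in `K i` then,
by Honda and Tate, all slopes with rational values between `0` and `a` that are symmetric in this way
occur for abelian varieties over finite fields. The case `M = 1`, `κ = a` is the case of ordinary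
abelian varieties; the assumption on `M` says that `a / 2` is not a slope. Slopes are rational, so
integral weights `M` are no restriction.

There are `2 ^ (∑ i, g i)` families of CM types `Φ i` of the fields `K i`. A family is exceptional
(`exceptionalFamilies ν K M`) if the following statement is false for it. Let `π i` be Weil
numbers for `q = p ^ a` that generate the fields `K i` and have the slope types `Φ i`, `M i`, and let
`f i` be monic polynomials whose complex roots are conjugates of `π i` (`IsPolyOf`), for instance the
characteristic polynomials of Frobenius of the abelian varieties in the isogeny classes of the `π i`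
over the field with `q` elements. Let `A` be an abelian variety over the field with `Q = q ^ s`
elements which is isogenous to a product of powers of abelian varieties coming from the field with
`q` elements, with characteristic polynomials `f i`, and let `Z` be **any** smooth projective variety
over the field with `Q` elements such that

* the eigenvalues `ρ` of Frobenius on the cohomology of `Z` and their conjugates are independent of
  the fields `K i` (`Independent`): for each complex embedding `ψ` of `K i` there is an automorphism
  `τ` of `ℂ` which fixes a power of `ρ` and is the complex conjugation on `ψ (K i)`. This is so if the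
  eigenvalues have powers in a number field which is linearly disjoint from the normal closures of
  the `K i`, or powers in a totally real field (take for `τ` the complex conjugation);
* homologically trivial self-correspondences of degree zero of `A × Z` are nilpotent, for instance
  the motive of `Z` is finite-dimensional in the sense of Kimura and O'Sullivan.

The Kunneth formula `⨁ CH^i(A)_ℚ ⊗ CH^(n-i)(Z)_ℚ = CH^n(A × Z)_ℚ` holds, in the form that there are
finitely many products `D j` of divisors on `A`, of codimension `c j`, such that
`CH^n(A × Z)_ℚ = ⨁ D j × CH^(n - c j)(Z)_ℚ` for all `n`; and **the pairing**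
`CH^n(A × Z)_ℝ × CH^(d-n)(A × Z)_ℝ → ℝ`, `d = dim A + dim Z`, **of the question is perfect if and
only if the pairings** `CH^m(Z)_ℝ × CH^(dim Z - m)(Z)_ℝ → ℝ` **with** `n - dim A ≤ m ≤ n` **are
perfect** (`PerfectPairingTimes`). So the conjecture of Beilinson for `A × Z` is equivalent to the one for
`Z`, degree by degree. For `Z` a curve or a surface all pairings for `Z` are perfect, by the theorems
quoted in the question, and so are all pairings for `A × Z`, for `A` of any dimension. The Frobenius
endomorphism of `A × Z` acts on `CH^i(A × Z)_ℚ` as multiplication by `Q ^ i`.

The framework (`TheoryData`, `IsChow`, `IsWeil`) is the one of helper492: the Chow groups `C` with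
their pull-backs, push-forwards and products, and a Weil cohomology theory `H` with coefficients in
an algebraically closed field, on a class `𝒱` of smooth proper varieties over `k`. The space
`CH^n(X)_ℝ` is the tensor product over `ℚ` of `ℝ` with the Chow group with rational coefficients, hence
the tensor product over `ℤ` of `ℝ` with the Chow group.

The theorem bounds the number of the exceptional families: it is at most
`2 ^ (∑ i, g i) * ∑ i, C * (n i) ^ 2 * rate (K i) (g i) (q i)`, with an absolute constant `C`. Here
`q i` is any prime factor of `g i` (or `q i = 1`), and `rate K g q` is `(1 + log (2 g)) ^ 16` times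
the smaller of the numbers

* `W (K) / √g`, where (second part of the theorem, `WeightEstimate`) `W (K) ≤ N ^ 2 * D ^ (1 / 4)`;
  `N` is the number of the CM subfields of `K` (with `K`) and `D` is the largest degree of a CM
  subfield of `K` that is normal over `ℚ` with a nonabelian Galois group (`D = 1` if there are none);
* `√g / q`.

So the exceptional types are a proportion `O (n ^ 2 * g ^ (-1 / 4) * (log g) ^ 16)` of all types of
all CM fields with a bounded number of CM subfields, and `O (n ^ 2 * g ^ (-1 / 2) * (log g) ^ 16)` if
the normal nonabelian ones have bounded degrees (for instance if `K` has no proper CM subfields and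
is not normal). And they are a proportion `O (n ^ 2 * g ^ (-δ) * (log g) ^ 16)` of the types of all
CM fields `K`, with any number of subfields, whose degree is divisible by a prime number
`q ≥ g ^ (1 / 2 + δ)`; for small `δ` there are such primes for about `log 2`, that is 69%, of all
numbers `g`. The counting (the bound for the number of the degenerate types) is the one of
`AllCMFields` (MP_e12fcd_ag) and `AllCMTypesTimes` (MP_28af06_ag) in the starting files.

The proof: if no multiplicative relations between the Frobenius eigenvalues of `A` and those of `Z` are left, then
a correspondence which is homologically trivial, hence nilpotent, acts on the Chow groups as an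
idempotent, which gives the Kunneth formula, and the pairing for `A × Z` is the orthogonal sum of
the pairings for `Z`
(`Y1/CT` of the starting files). For the types that are not degenerate no product of Frobenius
eigenvalues of `A`, no two of them complex conjugate, and of an independent eigenvalue is a power of
`Q` up to a root of unity, unless the factors cancel.
-/

set_option autoImplicit false

namespace Pool.Agent.Results.MP_4960c7_ag.AllCMTypesTimes

open NumberField Module Pool.Agent.H204R3.CM Pool.Agent.H977R3.CM Pool.Agent.Y1.KN
  Pool.Agent.Y1.CT

/-- The exceptional families of CM types: the property `PerfectPairingTimes` does not hold for all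
Weil numbers with the slope types `Φ i`, `M i`. -/
def exceptionalFamilies {p : ℕ} [Fact p.Prime] (ν : PadicAlgCl p ≃+* ℂ) {I : Type} (K : I → Type)
    [∀ i, Field (K i)] [∀ i, NumberField (K i)] [∀ i, IsCMField (K i)]
    (M : ∀ i, (K i →+* ℂ) → ℤ) : Set (∀ i, Set (K i →+* ℂ)) :=
  {Φ | (∀ i, IsCMType (Φ i)) ∧ ¬ ForAllTypes ν K M (PerfectPairingTimes K) Φ}

/-- **The real intersection pairings of `A × Z` are perfect exactly in the degrees which the ones of `Z` predict,
for the abelian varieties `A` of almost all slope types of all CM fields.** -/
theorem result :
    (∃ C : ℝ, ∀ (p : ℕ) [Fact p.Prime] (ν : PadicAlgCl p ≃+* ℂ) (I : Type) [Fintype I]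
      (K : I → Type) [∀ i, Field (K i)] [∀ i, NumberField (K i)] [∀ i, IsCMField (K i)]
      (M : ∀ i, (K i →+* ℂ) → ℤ) (n g q : I → ℕ), PairwiseIndep K →
      (∀ i φ, M i (ComplexEmbedding.conjugate φ) = M i φ) → (∀ i, n i ≠ 0) →
      (∀ i φ, M i φ ∣ (n i : ℤ)) → (∀ i, finrank ℚ (K i) = 2 * g i) →
      (∀ i, q i ∣ g i ∧ (q i = 1 ∨ (q i).Prime)) →
      ((exceptionalFamilies ν K M).ncard : ℝ) ≤
        2 ^ (∑ i, g i) * ∑ i, C * (n i : ℝ) ^ 2 * rate (K i) (g i) (q i)) ∧
    WeightEstimate := by
  obtain ⟨C, -, h⟩ := ncard_of_noRel'
  exact ⟨⟨C, fun p _ ν I _ K _ _ _ M n g q a b c d e f =>
    h p ν I K M n g q a b c d e f _ fun _ _ x y => perfectPairingTimes x y⟩, weight_estimate_holds⟩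

end Pool.Agent.Results.MP_4960c7_ag.AllCMTypesTimes
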