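import Mathlib
import Pool.Agent.N578.LB.Main
import Pool.Agent.Y154.BQ.Fin

/-!
# Rational and numerical equivalence on `A × Z`: exceptions are rare in every box of every lattice

Let `g i` (`i` in a finite set `I`) be positive integers, `r` an integer smaller than all the `g i`
and `E` a number field. Put `n = ∑ g i`. For a prime power `q` a point `x` of `ℤ ^ n` gives monic
polynomials `h i` of degree `g i` and the polynomials `f i = X ^ (g i) h i (X + q / X)`; all Weil
`q`-polynomials of degree `2 g i` are of this form, and by Weil, Honda and Tate they correspond to the
isogeny classes of abelian varieties of dimension `g i` over the field with `q` elements (up to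
multiplicities).

Known (starting files): among all the Weil polynomials the exceptions to the property below are a
proportion `O (q ^ (-1 / 6) log q)`. Here we show that the exceptions are rare **everywhere**: for all
`q` and all `B ≥ 2` they are a proportion `O (B ^ (-1 / 3) log B)` of the points in every
parallelepiped, with sides at least `B`, of every translate of a lattice of finite index, where the
index may have up to `B ^ (1 / 4)` prime factors and the basis is arbitrary. The constant does not
depend on `q`, so that `B` can be much smaller than `q`, for instance `B = log q`, or a large
constant. Diagonal matrices give the residue classes modulo all numbers, in particular modulo the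
powers of the characteristic, that is, all Newton strata (with first slope smaller than `1 / 2`, in
the form `q ∤ tr (h i) ^ 2`). Moreover there is a constant `R` such that for all `q ≥ R` every point of
`ℤ ^ n` has a good point at distance at most `R`.

The property (`PairingForRankOver`): let `A` be an abelian variety over the field with `Q = q ^ s`
elements, `s > 0`, which is isogenous to a product of powers of abelian varieties coming from the
field with `q` elements, with characteristic polynomials `f i`, and let `Z` be any smooth projective
variety over the field with `Q` elements such that

* the eigenvalues of Frobenius on the cohomology of `Z` and their conjugates generate a group of rank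
  at most `r` modulo the group of the numbers with a power in `E`;
* homologically trivial self-correspondences of degree zero of `A × Z` are nilpotent, for instance
  the motive of `Z` is finite-dimensional in the sense of Kimura and O'Sullivan.

The Kunneth formula `⨁ CH^i(A)_ℚ ⊗ CH^(n-i)(Z)_ℚ = CH^n(A × Z)_ℚ` holds, in the form that there are
finitely many products `D j` of divisors on `A`, of codimension `c j`, such that
`CH^n(A × Z)_ℚ = ⨁ D j × CH^(n - c j)(Z)_ℚ` for all `n`; and **the pairing**
`CH^n(A × Z)_ℝ × CH^(d-n)(A × Z)_ℝ → ℝ`, `d = dim A + dim Z`, **of the question is perfect if and
only if the pairings** `CH^m(Z)_ℝ × CH^(dim Z - m)(Z)_ℝ → ℝ` **with** `n - dim A ≤ m ≤ n` **are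
perfect** (`PairingForRankOver`). So the conjecture of Beilinson for `A × Z` is equivalent to the one for
`Z`, degree by degree. For `Z` a curve or a surface all pairings for `Z` are perfect, by the theorems
quoted in the question, and so are all pairings for `A × Z`, for `A` of any dimension. The Frobenius
endomorphism of `A × Z` acts on `CH^i(A × Z)_ℚ` as multiplication by `Q ^ i`.

The framework (`TheoryData`, `IsChow`, `IsWeil`) is the one of helper492: the Chow groups `C` with
their pull-backs, push-forwards and products, and a Weil cohomology theory `H` with coefficients in
an algebraically closed field, on a class `𝒱` of smooth proper varieties over `k`. The space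
`CH^n(X)_ℝ` is the tensor product over `ℚ` of `ℝ` with the Chow group with rational coefficients, hence
the tensor product over `ℤ` of `ℝ` with the Chow group.

The proof is the sieve of helper521 and helper484 with the primes that split completely in the Galois
closure of `E`, pulled back by the matrix of the lattice (helper578, `N578/LB`); for the points which
survive the sieve each pair `α`, `q / α` of roots can be exchanged by a Galois automorphism which fixes
the other roots and `E`, and the property is then a theorem of the starting files.
-/

set_option autoImplicit false

namespace Pool.Agent.Results.MP_4960c7_ag.LatticeBoxes

open Polynomial Pool.Agent.W484.TB Pool.Agent.W484.CK Pool.Agent.N578.LB Pool.Agent.Y154.BQ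

/-- For positive integers `g i > r` and a number field `E`, the property `PairingForRankOver E q r f` of
families `f` of Weil `q`-polynomials of degrees `2 g i` holds `InAllLattices`: for a constant `C`, all
prime powers `q`, all `B ≥ 2`, in every parallelepiped with sides at least `B` of every translate of a
lattice whose index has at most `B ^ (1 / 4)` prime factors the exceptions are a proportion
`≤ C B ^ (-1 / 3) log B`; and for a constant `R` and `q ≥ R` every point is at distance at most `R` from
a good one. -/
theorem result {I : Type} [Fintype I] [DecidableEq I] (g : I → ℕ) (r : ℕ) (hr : ∀ i, r < g i)
    (E : IntermediateField ℚ ℂ) [FiniteDimensional ℚ E] :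
    InAllLattices g (fun q f => PairingForRankOver E q r f) :=
  inAllLattices (splitPrimes E) (dense_splitPrimes E) g (fun i => (Nat.zero_le r).trans_lt (hr i)) _
    fun _ hq x hx => pairingForRankOver_of_good g E hq.one_lt r hr x hx

end Pool.Agent.Results.MP_4960c7_ag.LatticeBoxes
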